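import Mathlib

/-!
# A highly transitive topological full group with non-zero second bounded cohomology

`Q` is the group of strictly monotone permutations of `ℚ` commuting with `x ↦ x + 1`.  It acts on
the Cantor space by permuting coordinates, fixing the zero sequence `o`.  `G` is the group of all
homeomorphisms of the Cantor space whose germ at `o` is the germ of an element of `Q`.  It is a
topological full group, it is highly transitive on the complement of `o`, and it retracts onto `Q`,
which carries the quasimorphism `q ↦ ⌊q 0⌋`.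
-/

set_option autoImplicit false

open Topology Filter

namespace Pool.Agent.H926R3.TFG

/-- the Cantor space -/
abbrev K := ℕ → Bool

/-- the base point -/
def o : K := fun _ => false

/-- monotone permutations of `ℚ` commuting with the unit translation -/
def Q : Subgroup (Equiv.Perm ℚ) where
  carrier := {g | StrictMono g ∧ ∀ x, g (x + 1) = g x + 1}
  mul_mem' := by
    rintro a b ⟨ha, ha'⟩ ⟨hb, hb'⟩
    refine ⟨ha.comp hb, fun x => ?_⟩
    simp only [Equiv.Perm.mul_apply, hb', ha']
  one_mem' := ⟨strictMono_id, fun x => rfl⟩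
  inv_mem' := by
    rintro a ⟨ha, ha'⟩
    refine ⟨fun x y h => ?_, fun x => ?_⟩
    · rw [← ha.lt_iff_lt]
      simpa using h
    · apply a.injective
      rw [ha']
      simp

/-- enumeration of the rationals -/
noncomputable def e : ℚ ≃ ℕ := Denumerable.eqv ℚ

/-- permutation of coordinates -/
noncomputable def ρ (π : Equiv.Perm ℚ) : K ≃ₜ K where
  toFun x := fun n => x (e (π⁻¹ (e.symm n)))
  invFun x := fun n => x (e (π (e.symm n)))
  left_inv x := by funext n; simp
  right_inv x := by funext n; simp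
  continuous_toFun := by fun_prop
  continuous_invFun := by fun_prop

lemma ρ_apply (π : Equiv.Perm ℚ) (x : K) (n : ℕ) : ρ π x n = x (e (π⁻¹ (e.symm n))) := rfl

lemma ρ_mul (π τ : Equiv.Perm ℚ) (x : K) : ρ (π * τ) x = ρ π (ρ τ x) := by
  funext n
  simp [ρ_apply]

lemma ρ_one (x : K) : ρ 1 x = x := by
  funext n
  simp [ρ_apply]

lemma ρ_o (π : Equiv.Perm ℚ) : ρ π o = o := by
  funext n
  simp [ρ_apply, o]

/-- homeomorphisms with germ at `o` in `Q` -/
def G : Subgroup (K ≃ₜ K) where
  carrier := {g | ∃ q ∈ Q, ∀ᶠ y in 𝓝 o, g y = ρ q y}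
  mul_mem' := by
    rintro g g' ⟨q, hq, h⟩ ⟨q', hq', h'⟩
    refine ⟨q * q', Q.mul_mem hq hq', ?_⟩
    have h0 : g' o = o := by rw [h'.self_of_nhds, ρ_o]
    have ht : Tendsto g' (𝓝 o) (𝓝 o) := by
      have := g'.continuous.tendsto o
      rwa [h0] at this
    filter_upwards [ht.eventually h, h'] with y hy hy'
    rw [Homeomorph.mul_apply, hy, hy', ρ_mul]
  one_mem' := ⟨1, Q.one_mem, Eventually.of_forall fun y => by rw [ρ_one]; rfl⟩
  inv_mem' := by
    rintro g ⟨q, hq, h⟩
    refine ⟨q⁻¹, Q.inv_mem hq, ?_⟩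
    have ht : Tendsto (ρ q⁻¹) (𝓝 o) (𝓝 o) := by
      have := (ρ q⁻¹).continuous.tendsto o
      rwa [ρ_o] at this
    filter_upwards [ht.eventually h] with y hy
    rw [← ρ_mul, mul_inv_cancel, ρ_one] at hy
    conv_lhs => rw [← hy]
    rw [← Homeomorph.mul_apply, inv_mul_cancel]
    rfl

lemma germ_unique {q q' : Equiv.Perm ℚ} (hq : q ∈ Q) (hq' : q' ∈ Q)
    (h : ∀ᶠ y in 𝓝 o, ρ q y = ρ q' y) : q = q' := by
  by_contra hne
  obtain ⟨r, hr⟩ : ∃ r, q r ≠ q' r := by
    by_contra hc
    push Not at hc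
    exact hne (Equiv.ext hc)
  have hn : ∀ n : ℕ, q (r + n) = q r + n ∧ q' (r + n) = q' r + n := by
    intro n
    induction n with
    | zero => simp
    | succ n ih =>
      push_cast
      rw [← add_assoc, hq.2, hq'.2, ih.1, ih.2]
      constructor <;> ring
  classical
  let y : ℕ → K := fun n => fun i => decide (i = e (r + n))
  have hy : Tendsto y atTop (𝓝 o) := by
    rw [tendsto_pi_nhds]
    intro i
    apply tendsto_const_nhds.congr'
    by_cases hi : ∃ m : ℕ, i = e (r + m)
    · obtain ⟨m, hm⟩ := hi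
      filter_upwards [eventually_gt_atTop m] with n hnm
      simp only [o, y]
      symm
      rw [decide_eq_false_iff_not, hm, e.apply_eq_iff_eq]
      intro hc
      have : (m : ℚ) = n := by linarith
      have : m = n := by exact_mod_cast this
      omega
    · push Not at hi
      refine Eventually.of_forall fun n => ?_
      simp only [o, y]
      symm
      rw [decide_eq_false_iff_not]
      exact hi n
  obtain ⟨n, hn'⟩ := (hy.eventually h).exists
  have h1 := congrFun hn' (e (q (r + n)))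
  have hq1 : q⁻¹ (q (r + n)) = r + n := by simp
  simp only [ρ_apply, Equiv.symm_apply_apply, hq1, y, decide_true] at h1
  have h2 := h1.symm
  rw [decide_eq_true_iff, e.apply_eq_iff_eq, Equiv.Perm.inv_eq_iff_eq] at h2
  rw [(hn n).1, (hn n).2] at h2
  exact hr (by linarith)

/-- the germ at `o` -/
noncomputable def germ (g : G) : Equiv.Perm ℚ := Classical.choose g.2

lemma germ_mem (g : G) : germ g ∈ Q := (Classical.choose_spec g.2).1

lemma germ_spec (g : G) : ∀ᶠ y in 𝓝 o, (g : K ≃ₜ K) y = ρ (germ g) y :=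
  (Classical.choose_spec g.2).2

lemma germ_eq (g : G) {q : Equiv.Perm ℚ} (hq : q ∈ Q)
    (h : ∀ᶠ y in 𝓝 o, (g : K ≃ₜ K) y = ρ q y) : germ g = q := by
  apply germ_unique (germ_mem g) hq
  filter_upwards [germ_spec g, h] with y h1 h2
  rw [← h1, h2]

lemma G_o (g : G) : (g : K ≃ₜ K) o = o := by rw [(germ_spec g).self_of_nhds, ρ_o]

lemma germ_mul (g g' : G) : germ (g * g') = germ g * germ g' := by
  apply germ_eq _ (Q.mul_mem (germ_mem g) (germ_mem g'))
  have ht : Tendsto (g' : K ≃ₜ K) (𝓝 o) (𝓝 o) := by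
    have := (g' : K ≃ₜ K).continuous.tendsto o
    rwa [G_o] at this
  filter_upwards [ht.eventually (germ_spec g), germ_spec g'] with y hy hy'
  rw [Subgroup.coe_mul, Homeomorph.mul_apply, hy, hy', ρ_mul]

/-- the section -/
noncomputable def sec (q : Q) : G := ⟨ρ q, q, q.2, Eventually.of_forall fun _ => rfl⟩

lemma sec_mul (q q' : Q) : sec (q * q') = sec q * sec q' := by
  apply Subtype.ext
  apply Homeomorph.ext
  intro x
  exact ρ_mul _ _ _

lemma germ_sec (q : Q) : germ (sec q) = q :=
  germ_eq _ q.2 (Eventually.of_forall fun _ => rfl)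

/-! ### high transitivity -/

lemma swap_exists (F : Finset K) (x y : K) (hx : x ∉ F) (hy : y ∉ F) (ho : o ∈ F) :
    ∃ g ∈ G, g x = y ∧ ∀ z ∈ F, g z = z := by
  by_cases hxy : x = y
  · exact ⟨1, G.one_mem, hxy, fun z _ => rfl⟩
  classical
  -- translation by the difference
  let τ : K → K := fun z n => xor (z n) (xor (x n) (y n))
  have hτc : Continuous τ := by
    refine continuous_pi fun n => ?_
    exact (continuous_of_discreteTopology (f := fun b : Bool => xor b (xor (x n) (y n)))).comp
      (continuous_apply n)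
  have hττ : ∀ z, τ (τ z) = z := by
    intro z
    funext n
    simp only [τ]
    cases z n <;> cases x n <;> cases y n <;> rfl
  have hτx : τ x = y := by
    funext n
    simp only [τ]
    cases x n <;> cases y n <;> rfl
  -- separating length
  have hsep : ∀ a b : K, a ≠ b → ∃ N, ∃ i < N, a i ≠ b i := by
    intro a b hab
    obtain ⟨i, hi⟩ := Function.ne_iff.1 hab
    exact ⟨i + 1, i, Nat.lt_succ_self i, hi⟩
  have hF : ∀ F : Finset K, x ∉ F → y ∉ F →
      ∃ N, ∀ z ∈ F, (∃ i < N, z i ≠ x i) ∧ (∃ i < N, z i ≠ y i) := by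
    intro F
    induction F using Finset.induction_on with
    | empty => intro _ _; exact ⟨0, by simp⟩
    | insert z F hz ih =>
      intro h1 h2
      rw [Finset.mem_insert, not_or] at h1 h2
      obtain ⟨N, hN⟩ := ih h1.2 h2.2
      obtain ⟨N1, i1, hi1, hi1'⟩ := hsep z x (Ne.symm h1.1)
      obtain ⟨N2, i2, hi2, hi2'⟩ := hsep z y (Ne.symm h2.1)
      refine ⟨max N (max N1 N2), fun w hw => ?_⟩
      rw [Finset.mem_insert] at hw
      rcases hw with rfl | hw
      · exact ⟨⟨i1, by omega, hi1'⟩, ⟨i2, by omega, hi2'⟩⟩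
      · obtain ⟨⟨j1, hj1, hj1'⟩, ⟨j2, hj2, hj2'⟩⟩ := hN w hw
        exact ⟨⟨j1, by omega, hj1'⟩, ⟨j2, by omega, hj2'⟩⟩
  obtain ⟨N, hN⟩ := hF F hx hy
  let U : Set K := {z | (∀ i < N, z i = x i) ∨ (∀ i < N, z i = y i)}
  have hcyl : ∀ a : K, IsClopen {z : K | ∀ i < N, z i = a i} := by
    intro a
    have : {z : K | ∀ i < N, z i = a i} = ⋂ i ∈ Finset.range N, (fun z : K => z i) ⁻¹' {a i} := by
      ext z
      simp
    rw [this]
    refine isClopen_biInter_finset fun i _ => ?_
    exact (isClopen_discrete {a i}).preimage (continuous_apply i)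
  have hU : IsClopen U := (hcyl x).union (hcyl y)
  have hτU : ∀ z, τ z ∈ U ↔ z ∈ U := by
    have key : ∀ z, z ∈ U → τ z ∈ U := by
      rintro z (h | h)
      · right
        intro i hi
        simp only [τ, h i hi]
        cases x i <;> cases y i <;> rfl
      · left
        intro i hi
        simp only [τ, h i hi]
        cases x i <;> cases y i <;> rfl
    intro z
    refine ⟨fun h => ?_, key z⟩
    have := key _ h
    rwa [hττ] at this
  let s : K → K := fun z => if z ∈ U then τ z else z
  have hss : ∀ z, s (s z) = z := by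
    intro z
    simp only [s]
    by_cases hz : z ∈ U
    · rw [if_pos hz, if_pos ((hτU z).2 hz), hττ]
    · rw [if_neg hz, if_neg hz]
  have hsc : Continuous s := by
    refine Continuous.if (fun a ha => ?_) hτc continuous_id
    have : frontier {a | a ∈ U} = ∅ := hU.frontier_eq
    rw [this] at ha
    exact absurd ha (Set.notMem_empty a)
  let g : K ≃ₜ K :=
    { toFun := s, invFun := s, left_inv := hss, right_inv := hss,
      continuous_toFun := hsc, continuous_invFun := hsc }
  have hgF : ∀ z ∈ F, z ∉ U := by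
    rintro z hz (h | h)
    · obtain ⟨⟨i, hi, hi'⟩, _⟩ := hN z hz
      exact hi' (h i hi)
    · obtain ⟨_, ⟨i, hi, hi'⟩⟩ := hN z hz
      exact hi' (h i hi)
  refine ⟨g, ⟨1, Q.one_mem, ?_⟩, ?_, ?_⟩
  · filter_upwards [hU.compl.isOpen.mem_nhds (hgF o ho)] with z hz
    rw [ρ_one]
    exact if_neg hz
  · change s x = y
    simp only [s]
    rw [if_pos (show x ∈ U from Or.inl fun _ _ => rfl), hτx]
  · intro z hz
    exact if_neg (hgF z hz)

lemma highly_transitive (n : ℕ) (a b : Fin n → K) (ha : Function.Injective a)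
    (hb : Function.Injective b) (ha' : ∀ i, a i ≠ o) (hb' : ∀ i, b i ≠ o) :
    ∃ g ∈ G, ∀ i, g (a i) = b i := by
  classical
  induction n with
  | zero => exact ⟨1, G.one_mem, fun i => i.elim0⟩
  | succ n ih =>
    obtain ⟨g, hg, hgi⟩ := ih (fun i => a i.castSucc) (fun i => b i.castSucc)
      (fun i j h => Fin.castSucc_injective n (ha h)) (fun i j h => Fin.castSucc_injective n (hb h))
      (fun i => ha' _) (fun i => hb' _)
    have hgo : g o = o := G_o ⟨g, hg⟩
    have h1 : g (a (Fin.last n)) ∉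
        (insert o (Finset.univ.image fun i : Fin n => b i.castSucc) : Finset K) := by
      rw [Finset.mem_insert, not_or]
      refine ⟨fun h => ha' (Fin.last n) (g.injective (h.trans hgo.symm)), fun h => ?_⟩
      rw [Finset.mem_image] at h
      obtain ⟨i, _, hi⟩ := h
      rw [← hgi i] at hi
      have := ha (g.injective hi)
      exact absurd this (Fin.castSucc_lt_last i).ne
    have h2 : b (Fin.last n) ∉
        (insert o (Finset.univ.image fun i : Fin n => b i.castSucc) : Finset K) := by
      rw [Finset.mem_insert, not_or]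
      refine ⟨hb' _, fun h => ?_⟩
      rw [Finset.mem_image] at h
      obtain ⟨i, _, hi⟩ := h
      exact absurd (hb hi) (Fin.castSucc_lt_last i).ne
    obtain ⟨s, hs, hs1, hs2⟩ := swap_exists _ _ _ h1 h2 (Finset.mem_insert_self _ _)
    refine ⟨s * g, G.mul_mem hs hg, fun i => ?_⟩
    rw [Homeomorph.mul_apply]
    refine Fin.lastCases ?_ (fun i => ?_) i
    · exact hs1
    · rw [hgi i]
      exact hs2 _ (Finset.mem_insert_of_mem (Finset.mem_image_of_mem _ (Finset.mem_univ i)))

/-! ### the quasimorphism -/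

/-- the quasimorphism on `Q` -/
noncomputable def φ (q : Equiv.Perm ℚ) : ℤ := ⌊q 0⌋

lemma Q_add_nat (q : Equiv.Perm ℚ) (hq : q ∈ Q) (x : ℚ) (n : ℕ) : q (x + n) = q x + n := by
  induction n with
  | zero => simp
  | succ n ih =>
    push_cast
    rw [← add_assoc, hq.2, ih]
    ring

lemma Q_add_int (q : Equiv.Perm ℚ) (hq : q ∈ Q) (x : ℚ) (n : ℤ) : q (x + n) = q x + n := by
  obtain ⟨m, rfl | rfl⟩ := n.eq_nat_or_neg
  · exact_mod_cast Q_add_nat q hq x m
  · have := Q_add_nat q hq (x + ((-(m : ℤ) : ℤ) : ℚ)) m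
    push_cast at this ⊢
    rw [neg_add_cancel_right] at this
    linarith

lemma φ_defect (p q : Equiv.Perm ℚ) (hp : p ∈ Q) : |φ (p * q) - φ p - φ q| ≤ 1 := by
  have h1 : φ p + φ q ≤ φ (p * q) := by
    unfold φ
    rw [Int.le_floor, Equiv.Perm.mul_apply]
    have h2 : p (0 + (⌊q 0⌋ : ℤ)) ≤ p (q 0) := by
      apply hp.1.monotone
      rw [zero_add]
      exact Int.floor_le _
    rw [Q_add_int p hp] at h2
    have h3 := Int.floor_le (p 0)
    push_cast
    linarith
  have h4 : φ (p * q) < φ p + φ q + 2 := by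
    unfold φ
    rw [Int.floor_lt, Equiv.Perm.mul_apply]
    have h2 : p (q 0) ≤ p (0 + ((⌊q 0⌋ + 1 : ℤ) : ℚ)) := by
      apply hp.1.monotone
      rw [zero_add]
      push_cast
      exact (Int.lt_floor_add_one _).le
    rw [Q_add_int p hp] at h2
    have h3 := Int.lt_floor_add_one (p 0)
    push_cast at h2 ⊢
    linarith
  rw [abs_le]
  constructor <;> linarith

/-- the shape of the nonlinear generator on the unit interval -/
def bump (u : ℚ) : ℚ := min (3 * u / 2) (1 / 2 + u / 2)

/-- its inverse -/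
def bumpInv (u : ℚ) : ℚ := max (2 * u / 3) (2 * u - 1)

lemma bump_nonneg {u : ℚ} (h : 0 ≤ u) : 0 ≤ bump u := by
  unfold bump
  apply le_min <;> linarith

lemma bump_lt_one {u : ℚ} (h : u < 1) : bump u < 1 := by
  unfold bump
  exact (min_le_right _ _).trans_lt (by linarith)

lemma bump_strictMono {u v : ℚ} (h : u < v) : bump u < bump v := by
  unfold bump
  apply lt_min
  · exact (min_le_left _ _).trans_lt (by linarith)
  · exact (min_le_right _ _).trans_lt (by linarith)

lemma bumpInv_nonneg {u : ℚ} (h : 0 ≤ u) : 0 ≤ bumpInv u := by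
  unfold bumpInv
  exact le_max_of_le_left (by linarith)

lemma bumpInv_lt_one {u : ℚ} (h : u < 1) : bumpInv u < 1 := by
  unfold bumpInv
  apply max_lt <;> linarith

lemma bumpInv_bump (u : ℚ) : bumpInv (bump u) = u := by
  unfold bumpInv bump
  rcases le_total (3 * u / 2) (1 / 2 + u / 2) with h | h
  · rw [min_eq_left h, max_eq_left] <;> linarith
  · rw [min_eq_right h, max_eq_right] <;> linarith

lemma bump_bumpInv (u : ℚ) : bump (bumpInv u) = u := by
  unfold bumpInv bump
  rcases le_total (2 * u / 3) (2 * u - 1) with h | h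
  · rw [max_eq_right h, min_eq_right] <;> linarith
  · rw [max_eq_left h, min_eq_left] <;> linarith

lemma floor_add_of {n : ℤ} {r : ℚ} (h0 : 0 ≤ r) (h1 : r < 1) : ⌊(n : ℚ) + r⌋ = n := by
  rw [Int.floor_eq_iff]
  constructor <;> linarith

lemma fract_add_of {n : ℤ} {r : ℚ} (h0 : 0 ≤ r) (h1 : r < 1) : Int.fract ((n : ℚ) + r) = r := by
  unfold Int.fract
  rw [floor_add_of h0 h1]
  ring

/-- the nonlinear generator -/
def tt : Equiv.Perm ℚ where
  toFun x := ⌊x⌋ + bump (Int.fract x)
  invFun x := ⌊x⌋ + bumpInv (Int.fract x)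
  left_inv x := by
    have h0 := bump_nonneg (Int.fract_nonneg x)
    have h1 := bump_lt_one (Int.fract_lt_one x)
    simp only [floor_add_of h0 h1, fract_add_of h0 h1, bumpInv_bump, Int.floor_add_fract]
  right_inv x := by
    have h0 := bumpInv_nonneg (Int.fract_nonneg x)
    have h1 := bumpInv_lt_one (Int.fract_lt_one x)
    simp only [floor_add_of h0 h1, fract_add_of h0 h1, bump_bumpInv, Int.floor_add_fract]

lemma tt_apply (x : ℚ) : tt x = ⌊x⌋ + bump (Int.fract x) := rfl

lemma tt_apply' (n : ℤ) (r : ℚ) (h0 : 0 ≤ r) (h1 : r < 1) : tt (n + r) = n + bump r := by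
  rw [tt_apply, floor_add_of h0 h1, fract_add_of h0 h1]

lemma tt_mem : tt ∈ Q := by
  refine ⟨fun x y h => ?_, fun x => ?_⟩
  · rw [tt_apply, tt_apply]
    rcases (Int.floor_mono h.le).lt_or_eq with hf | hf
    · have h1 := bump_lt_one (Int.fract_lt_one x)
      have h2 := bump_nonneg (Int.fract_nonneg y)
      have h3 : (⌊x⌋ : ℚ) + 1 ≤ ⌊y⌋ := by exact_mod_cast hf
      linarith
    · rw [hf]
      have : Int.fract x < Int.fract y := by
        unfold Int.fract
        rw [hf]
        linarith
      linarith [bump_strictMono this]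
  · rw [tt_apply, tt_apply, Int.floor_add_one, Int.fract_add_one]
    push_cast
    ring

/-- translation by one half -/
def ss : Equiv.Perm ℚ := Equiv.addRight (1 / 2)

lemma ss_apply (x : ℚ) : ss x = x + 1 / 2 := rfl

lemma ss_mem : ss ∈ Q := by
  refine ⟨fun x y h => ?_, fun x => ?_⟩
  · rw [ss_apply, ss_apply]; linarith
  · rw [ss_apply, ss_apply]; ring

lemma w_apply : (((ss * tt) ^ 5 : Equiv.Perm ℚ)) 0 ≥ 3 := by
  have e0 : tt 0 = 0 := by
    have := tt_apply' 0 0 le_rfl one_pos
    simpa [bump] using this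
  have e1 : tt (0 + 1 / 2) = 3 / 4 := by
    have := tt_apply' 0 (1 / 2) (by norm_num) (by norm_num)
    norm_num [bump] at this ⊢
    exact this
  have e2 : tt (3 / 4 + 1 / 2) = 11 / 8 := by
    have := tt_apply' 1 (1 / 4) (by norm_num) (by norm_num)
    norm_num [bump] at this ⊢
    exact this
  have e3 : tt (11 / 8 + 1 / 2) = 31 / 16 := by
    have := tt_apply' 1 (7 / 8) (by norm_num) (by norm_num)
    norm_num [bump] at this ⊢
    exact this
  have e4 : tt (31 / 16 + 1 / 2) = 85 / 32 := by
    have := tt_apply' 2 (7 / 16) (by norm_num) (by norm_num)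
    norm_num [bump] at this ⊢
    exact this
  simp only [pow_succ, pow_zero, one_mul, Equiv.Perm.mul_apply, e0, ss_apply, e1, e2, e3, e4]
  norm_num

lemma iterate_ge (q : Equiv.Perm ℚ) (hq : q ∈ Q) (m : ℤ) (h : (m : ℚ) ≤ q 0) (n : ℕ) :
    (n * m : ℚ) ≤ (q ^ n) 0 := by
  induction n with
  | zero => simp
  | succ n ih =>
    rw [pow_succ', Equiv.Perm.mul_apply]
    have h1 : q (0 + ((n * m : ℤ) : ℚ)) ≤ q ((q ^ n) 0) := by
      apply hq.1.monotone
      rw [zero_add, Int.cast_mul, Int.cast_natCast]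
      exact ih
    rw [Q_add_int q hq, Int.cast_mul, Int.cast_natCast] at h1
    rw [Nat.cast_succ]
    linarith

lemma iterate_le (q : Equiv.Perm ℚ) (hq : q ∈ Q) (m : ℤ) (h : q 0 ≤ m) (n : ℕ) :
    (q ^ n) 0 ≤ (n * m : ℚ) := by
  induction n with
  | zero => simp
  | succ n ih =>
    rw [pow_succ', Equiv.Perm.mul_apply]
    have h1 : q ((q ^ n) 0) ≤ q (0 + ((n * m : ℤ) : ℚ)) := by
      apply hq.1.monotone
      rw [zero_add, Int.cast_mul, Int.cast_natCast]
      exact ih
    rw [Q_add_int q hq, Int.cast_mul, Int.cast_natCast] at h1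
    rw [Nat.cast_succ]
    linarith

/-- no additive function on `Q` is at bounded distance from `φ` -/
lemma no_hom (θ : Q → ℝ) (hθ : ∀ p q, θ (p * q) = θ p + θ q) (C : ℝ)
    (hC : ∀ q : Q, |θ q - φ q| ≤ C) : False := by
  have hpow : ∀ (q : Q) (n : ℕ), θ (q ^ n) = n * θ q := by
    intro q n
    induction n with
    | zero =>
      have := hθ 1 1
      simp only [mul_one] at this
      simp only [pow_zero, Nat.cast_zero, zero_mul]
      linarith
    | succ n ih =>
      rw [pow_succ, hθ, ih]
      push_cast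
      ring
  have hlim : ∀ (x : ℝ) (D : ℝ), (∀ n : ℕ, n * x ≤ D) → x ≤ 0 := by
    intro x D h
    by_contra hx
    push Not at hx
    obtain ⟨n, hn⟩ := exists_nat_gt (D / x)
    rw [div_lt_iff₀ hx] at hn
    exact absurd (h n) (not_le.2 hn)
  have hge : ∀ (q : Q) (m : ℤ), (m : ℚ) ≤ (q : Equiv.Perm ℚ) 0 → (m : ℝ) ≤ θ q := by
    intro q m hm
    have : (m : ℝ) - θ q ≤ 0 := by
      apply hlim _ C
      intro n
      have h1 := hC (q ^ n)
      rw [hpow] at h1
      have h2 : (n * m : ℤ) ≤ φ ((q ^ n : Q) : Equiv.Perm ℚ) := by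
        unfold φ
        rw [Int.le_floor]
        have := iterate_ge q q.2 m hm n
        push_cast
        exact this
      have h3 : ((n * m : ℤ) : ℝ) ≤ φ ((q ^ n : Q) : Equiv.Perm ℚ) := by exact_mod_cast h2
      have h4 := (abs_le.1 h1).1
      rw [Int.cast_mul, Int.cast_natCast] at h3
      nlinarith
    linarith
  have hle : ∀ (q : Q) (m : ℤ), (q : Equiv.Perm ℚ) 0 ≤ m → θ q ≤ (m : ℝ) := by
    intro q m hm
    have : θ q - (m : ℝ) ≤ 0 := by
      apply hlim _ C
      intro n
      have h1 := hC (q ^ n)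
      rw [hpow] at h1
      have h2 : φ ((q ^ n : Q) : Equiv.Perm ℚ) ≤ (n * m : ℤ) := by
        have h5 : (φ ((q ^ n : Q) : Equiv.Perm ℚ) : ℚ) ≤ ((n * m : ℤ) : ℚ) := by
          have h6 := iterate_le q q.2 m hm n
          have h7 : (φ ((q ^ n : Q) : Equiv.Perm ℚ) : ℚ) ≤ ((q : Equiv.Perm ℚ) ^ n) 0 :=
            Int.floor_le _
          push_cast
          exact h7.trans h6
        exact_mod_cast h5
      have h3 : (φ ((q ^ n : Q) : Equiv.Perm ℚ) : ℝ) ≤ ((n * m : ℤ) : ℝ) := by exact_mod_cast h2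
      have h4 := (abs_le.1 h1).2
      rw [Int.cast_mul, Int.cast_natCast] at h3
      nlinarith
    linarith
  let s : Q := ⟨ss, ss_mem⟩
  let t : Q := ⟨tt, tt_mem⟩
  have h1 : θ s ≤ 1 / 2 := by
    have := hle (s ^ 2) 1 (by
      change ((ss ^ 2 : Equiv.Perm ℚ)) 0 ≤ _
      simp only [pow_succ, pow_zero, one_mul, Equiv.Perm.mul_apply, ss_apply]
      norm_num)
    rw [hpow] at this
    push_cast at this
    linarith
  have h2 : θ t ≤ 0 := by
    have := hle t 0 (by
      change tt 0 ≤ _
      have := tt_apply' 0 0 le_rfl one_pos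
      simp [bump] at this
      simp [this])
    simpa using this
  have h3 : (3 : ℝ) ≤ θ ((s * t) ^ 5) := by
    have := hge ((s * t) ^ 5) 3 (by
      have := w_apply
      simpa using this)
    exact_mod_cast this
  rw [hpow, hθ] at h3
  push_cast at h3
  linarith

end Pool.Agent.H926R3.TFG
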